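import Pool.Agent.Q211.PG.Bnd1

set_option autoImplicit false

/-!
# Project PRG: all coefficients, bounded total change
-/

open Polynomial Filter Topology Finset MeasureTheory
open Pool.Agent.Q240.PR (Sm S_Poly S_Ker S_Par)
open Pool.Agent.Q211.PR (FamOK Up prod_int prod_bd up_approx up_pos fa_sm TT_bd TT_cont line_cont)
open Pool.Agent.Q286.PG
open scoped FourierTransform ContDiff

namespace Pool.Agent.Q211.PG

theorem Lm_ev {m C : ℝ} {Q : ℝ × ℕ → Prop} (h : ∀ᶠ p in Lm m C, Q p) :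
    ∃ A : ℝ, ∀ (a : ℝ) (n : ℕ), A ≤ a → ⌈C * a * Real.exp (2 * a / m)⌉₊ ≤ n → Q (a, n) := by
  unfold Lm at h
  rw [eventually_inf_principal, eventually_comap, eventually_atTop] at h
  obtain ⟨A, hA⟩ := h
  exact ⟨A, fun a n h1 h2 => hA a h1 (a, n) rfl h2⟩

theorem cexp_norm (t v : ℝ) : ‖Complex.exp (-(t * v * Complex.I))‖ = 1 := by
  rw [Complex.norm_exp]
  simp

theorem fexp_int {φ : ℝ → ℂ} (hφ : Integrable φ) (t : ℝ) :
    Integrable (fun v : ℝ => φ v * Complex.exp (-(t * v * Complex.I))) := by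
  refine hφ.mul_bdd (c := 1) (Continuous.aestronglyMeasurable (by fun_prop)) (Eventually.of_forall fun v => ?_)
  rw [cexp_norm]

/-- sums of exponentials -/
theorem gen {φ : ℝ → ℂ} (hφ : Integrable φ) {y : ℕ → ℂ} (hy : Summable fun n => ‖y n‖) (t : ℕ → ℝ) :
    Integrable (fun v : ℝ => φ v * ∑' n, y n * Complex.exp (-(t n * v * Complex.I))) ∧
    ∫ v : ℝ, φ v * ∑' n, y n * Complex.exp (-(t n * v * Complex.I)) =
      ∑' n, y n * ∫ v : ℝ, φ v * Complex.exp (-(t n * v * Complex.I)) := by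
  have hn : ∀ n (v : ℝ), ‖y n * Complex.exp (-(t n * v * Complex.I))‖ = ‖y n‖ := fun n v => by
    rw [norm_mul, cexp_norm, mul_one]
  have hc : Continuous (fun v : ℝ => ∑' n, y n * Complex.exp (-(t n * v * Complex.I))) :=
    continuous_tsum (fun n => by fun_prop) hy (fun n v => (hn n v).le)
  have hsm : ∀ v : ℝ, Summable fun n => y n * Complex.exp (-(t n * v * Complex.I)) := fun v =>
    Summable.of_norm (by simpa only [hn] using hy)
  have hb : ∀ v : ℝ, ‖∑' n, y n * Complex.exp (-(t n * v * Complex.I))‖ ≤ ∑' n, ‖y n‖ := fun v => by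
    refine (norm_tsum_le_tsum_norm (by simpa only [hn] using hy)).trans (le_of_eq ?_)
    simp only [hn]
  refine ⟨hφ.mul_bdd (c := ∑' n, ‖y n‖) hc.aestronglyMeasurable (Eventually.of_forall hb), ?_⟩
  have h1 := hasSum_integral_of_summable_integral_norm (μ := (volume : Measure ℝ))
    (F := fun (n : ℕ) (v : ℝ) => y n * (φ v * Complex.exp (-(t n * v * Complex.I))))
    (fun n => (fexp_int hφ (t n)).const_mul _) (by
      have h2 : ∀ n, ∫ v : ℝ, ‖y n * (φ v * Complex.exp (-(t n * v * Complex.I)))‖ = ‖y n‖ * ∫ v, ‖φ v‖ := by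
        intro n
        rw [← integral_const_mul]
        refine integral_congr_ae (Eventually.of_forall fun v => ?_)
        simp only
        rw [norm_mul, norm_mul, cexp_norm, mul_one]
      simp only [h2]
      exact hy.mul_right _)
  have h3 := h1.tsum_eq
  have h4 : ∀ v : ℝ, φ v * ∑' n, y n * Complex.exp (-(t n * v * Complex.I)) =
      ∑' n, y n * (φ v * Complex.exp (-(t n * v * Complex.I))) := by
    intro v
    rw [← tsum_mul_left]
    exact tsum_congr fun n => by ring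
  simp only [h4]
  rw [← h3]
  exact tsum_congr fun n => integral_const_mul _ _

/-- the sum in the multiplier -/
noncomputable def Sx (x : ℕ → ℂ) (v : ℝ) : ℂ := ∑' n : ℕ, x n * Complex.exp (-(Real.log n * v * Complex.I))

theorem Tm_eq (x : ℕ → ℂ) (κ v : ℝ) : Tm x κ v = κ + (Sx x v).re := rfl

theorem Sx_cont {x : ℕ → ℂ} (hx : Summable fun n => ‖x n‖) : Continuous (Sx x) := by
  unfold Sx
  refine continuous_tsum (fun n => by fun_prop) hx fun n v => ?_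
  rw [norm_mul, cexp_norm, mul_one]

theorem Sx_bd {x : ℕ → ℂ} (hx : Summable fun n => ‖x n‖) (v : ℝ) : ‖Sx x v‖ ≤ ∑' n, ‖x n‖ := by
  unfold Sx
  have hn : ∀ n, ‖x n * Complex.exp (-(Real.log n * v * Complex.I))‖ = ‖x n‖ := fun n => by
    rw [norm_mul, cexp_norm, mul_one]
  refine (norm_tsum_le_tsum_norm (by simpa only [hn] using hx)).trans (le_of_eq ?_)
  simp only [hn]

theorem Tm_cont {x : ℕ → ℂ} (hx : Summable fun n => ‖x n‖) (κ : ℝ) : Continuous (Tm x κ) := by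
  have : Tm x κ = fun v => κ + (Sx x v).re := rfl
  rw [this]
  exact continuous_const.add (Complex.continuous_re.comp (Sx_cont hx))

theorem Tm_bd {x : ℕ → ℂ} (hx : Summable fun n => ‖x n‖) (κ v : ℝ) : |Tm x κ v| ≤ |κ| + ∑' n, ‖x n‖ := by
  rw [Tm_eq]
  refine (abs_add_le _ _).trans (add_le_add le_rfl ?_)
  exact (Complex.abs_re_le_norm _).trans (Sx_bd hx v)

theorem Tm_int {φ : ℝ → ℝ} (hφ : Integrable φ) {x : ℕ → ℂ} (hx : Summable fun n => ‖x n‖) (κ : ℝ) :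
    ∫ v, φ v * Tm x κ v = κ * (∫ v, φ v) +
      (∑' n : ℕ, x n * ∫ v : ℝ, (φ v : ℂ) * Complex.exp (-(Real.log n * v * Complex.I))).re := by
  obtain ⟨h1, h2⟩ := gen (φ := fun v => (φ v : ℂ)) hφ.ofReal hx (fun n => Real.log n)
  have h3 : ∀ v, φ v * Tm x κ v = κ * φ v + ((φ v : ℂ) * Sx x v).re := by
    intro v
    rw [Tm_eq, Complex.re_ofReal_mul]
    ring
  simp only [h3]
  have h4 : Integrable (fun v => (φ v : ℂ) * Sx x v) := h1
  have h5 : ∫ v, (φ v : ℂ) * Sx x v = ∑' n : ℕ, x n * ∫ v : ℝ, (φ v : ℂ) * Complex.exp (-(Real.log n * v * Complex.I)) := h2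
  have h6 : Integrable (fun v => ((φ v : ℂ) * Sx x v).re) := h4.re
  have h7 : ∫ v, ((φ v : ℂ) * Sx x v).re = (∫ v, (φ v : ℂ) * Sx x v).re := integral_re h4
  rw [integral_add (hφ.const_mul κ) h6, integral_const_mul, ← h5, h7]

/-- the value on a function of the form domain -/
theorem Tm_pos (hPar : S_ParC) {a : ℝ} (ha : 0 < a) {f : ℝ → ℂ} (hf : Y23.Fa a f) {x : ℕ → ℂ}
    (hx : Summable fun n => ‖x n‖) (κ : ℝ) :
    ∫ v : ℝ, ‖Y23.TT f (v * Complex.I)‖ ^ 2 * Tm x (κ / 2) v =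
      Real.pi * (2 * (∑' n : ℕ, x n * ∫ y : ℝ, f (y + Real.log n) * (starRingEnd ℂ) (f y)).re + κ * Y23.N2 f) := by
  rw [Tm_int (Y23.int_TT_sq hf) hx, Y23.plancherel hf]
  have h1 : ∀ n : ℕ, x n * ∫ v : ℝ, ((‖Y23.TT f (v * Complex.I)‖ ^ 2 : ℝ) : ℂ) *
      Complex.exp (-(Real.log n * v * Complex.I)) =
      (2 * Real.pi : ℝ) * (x n * ∫ y : ℝ, f (y + Real.log n) * (starRingEnd ℂ) (f y)) := by
    intro n
    have h2 := hPar a (Real.log n) f ha hf
    rw [← h2]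
    push_cast
    ring
  simp only [h1]
  rw [tsum_mul_left, Complex.re_ofReal_mul]
  ring

/-- the trial functions are close to their limits -/
theorem close {w T : ℝ → ℝ} {B s : ℝ} {f g : ℝ → ℂ} (hs : 0 < s) (hTc : Continuous T)
    (hB : ∀ v, |T v| ≤ B) (hf : Continuous f) (hg : Continuous g) (hw : ∀ v, w v = ‖g v‖ ^ 2)
    (hwi : Integrable w) (hd : Integrable (fun v => ‖f v - g v‖ ^ 2)) :
    |(∫ v, ‖f v‖ ^ 2 * T v) - ∫ v, w v * T v| ≤
      B * ((1 + 1 / s) * (∫ v, ‖f v - g v‖ ^ 2) + s * ∫ v, w v) := by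
  have hp : ∀ v, |‖f v‖ ^ 2 - w v| ≤ (1 + 1 / s) * ‖f v - g v‖ ^ 2 + s * w v := by
    intro v
    rw [hw]
    set x := ‖f v‖ with hx
    set y := ‖g v‖ with hy
    set d := ‖f v - g v‖ with hdd
    have h1 : |x - y| ≤ d := abs_norm_sub_norm_le _ _
    have h2 : 0 ≤ d := norm_nonneg _
    have h3 : 0 ≤ x := norm_nonneg _
    have h4 : 0 ≤ y := norm_nonneg _
    have h5 : x + y ≤ d + 2 * y := by linarith [(abs_le.1 h1).2]
    have h6 : |x ^ 2 - y ^ 2| = |x - y| * (x + y) := by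
      rw [sq_sub_sq, abs_mul, abs_of_nonneg (by linarith : 0 ≤ x + y)]
      ring
    rw [h6]
    have h7 : |x - y| * (x + y) ≤ d * (d + 2 * y) := mul_le_mul h1 h5 (by linarith) h2
    have h8 : 2 * (d * y) ≤ 1 / s * d ^ 2 + s * y ^ 2 := by
      have h9 : 0 ≤ (d - s * y) ^ 2 / s := by positivity
      have h10 : (d - s * y) ^ 2 / s = 1 / s * d ^ 2 + s * y ^ 2 - 2 * (d * y) := by
        field_simp
        ring
      linarith
    nlinarith
  have hwc : Continuous w := by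
    have : w = fun v => ‖g v‖ ^ 2 := funext hw
    rw [this]
    exact hg.norm.pow 2
  have hwT : Integrable (fun v => w v * T v) := prod_int hwi hTc hB
  have hbd : Integrable (fun v => (1 + 1 / s) * ‖f v - g v‖ ^ 2 + s * w v) := (hd.const_mul _).add (hwi.const_mul s)
  have hdi : Integrable (fun v => ‖f v‖ ^ 2 - w v) :=
    hbd.mono' ((hf.norm.pow 2).sub hwc).aestronglyMeasurable (Eventually.of_forall fun v => hp v)
  have hfi : Integrable (fun v => ‖f v‖ ^ 2) := by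
    refine (hdi.add hwi).congr (Eventually.of_forall fun v => ?_)
    simp only [Pi.add_apply]
    ring
  have hfT : Integrable (fun v => ‖f v‖ ^ 2 * T v) := prod_int hfi hTc hB
  rw [← integral_sub hfT hwT]
  have h1 := prod_bd (T := T) hdi hB
  have h2 : ∫ v, (‖f v‖ ^ 2 * T v - w v * T v) = ∫ v, (‖f v‖ ^ 2 - w v) * T v :=
    integral_congr_ae (Eventually.of_forall fun v => by simp only; ring)
  rw [h2]
  refine h1.trans ?_
  have hB0 : 0 ≤ B := (abs_nonneg _).trans (hB 0)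
  refine mul_le_mul_of_nonneg_left ?_ hB0
  calc ∫ v, |‖f v‖ ^ 2 - w v| ≤ ∫ v, ((1 + 1 / s) * ‖f v - g v‖ ^ 2 + s * w v) :=
        integral_mono hdi.abs hbd hp
    _ = _ := by
        rw [integral_add (hd.const_mul _) (hwi.const_mul _), integral_const_mul, integral_const_mul]

variable [L : Y23.G.LFun]

/-- the family of the admissible multipliers; `κ` is the change of the logarithm of the conductor -/
def Adm (C B A : ℝ) (T : ℝ → ℝ) : Prop := ∃ (a : ℝ) (ν : ℕ∞) (x : ℕ → ℂ) (κ δ : ℝ), A ≤ a ∧ 1 ≤ a ∧ 0 ≤ δ ∧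
  δ * max A 1 ≤ 1 ∧ ((⌈C * a * Real.exp (2 * a / L.m)⌉₊ : ℕ) : ℕ∞) ≤ ν ∧ x 0 = 0 ∧ x 1 = 0 ∧
  (Summable fun n => ‖x n‖) ∧ ∑' n, ‖x n‖ ≤ B ∧ -δ ≤ κ ∧ κ ≤ B ∧ PosG (D := Y23.G.zd) a ν x κ ∧ T = Tm x (κ / 2)

theorem adm_ok {C B : ℝ} (hB : 1 ≤ B) : FamOK (Adm (L := L) C B) (2 * B) where
  mono := by
    rintro A A' T hA ⟨a, ν, x, κ, δ, h1, h2, h3, h4, h5⟩
    refine ⟨a, ν, x, κ, δ, hA.trans h1, h2, h3, le_trans ?_ h4, h5⟩
    exact mul_le_mul_of_nonneg_left (max_le_max hA le_rfl) h3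
  cont := by
    rintro A T ⟨a, ν, x, κ, δ, h1, h2, h3, h4, h5, h6, h7, h8, h9, h10, h11, h12, rfl⟩
    exact Tm_cont h8 _
  bdd := by
    rintro A T ⟨a, ν, x, κ, δ, h1, h2, h3, h4, h5, h6, h7, h8, h9, h10, h11, h12, rfl⟩ v
    refine (Tm_bd h8 _ v).trans ?_
    have hδ : δ ≤ 1 := by
      have h13 : (1 : ℝ) ≤ max A 1 := le_max_right _ _
      nlinarith
    have h14 : |κ / 2| ≤ B := by
      rw [abs_le]
      constructor <;> linarith
    linarith

theorem up_w (hPar : S_ParC) (hX : Dec fun w => L.X (1 / 2 + w)) {h C B : ℝ} (hB : 1 ≤ B)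
    (hF : ∀ χ : ℝ → ℂ, Sm h χ → ∃ F : ℝ × ℕ → ℝ → ℂ,
      (∀ᶠ p in Lm L.m C, Y23.G.F.Hn p.1 (p.2 : ℕ∞) (F p) ∧
        |Y23.G.QQ (D := Y23.G.zd) (F p)| ≤ Real.exp (-(Y23.G.cc (L := L) * Real.exp (2 * p.1 / L.m))) ∧
        Integrable fun v : ℝ => ‖Y23.TT (F p) (v * Complex.I) - L.X (1 / 2 + v * Complex.I) * Y23.TT χ (v * Complex.I)‖ ^ 2) ∧
      Tendsto (fun p => ∫ v : ℝ, ‖Y23.TT (F p) (v * Complex.I) - L.X (1 / 2 + v * Complex.I) * Y23.TT χ (v * Complex.I)‖ ^ 2)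
        (Lm L.m C) (𝓝 0))
    {χ : ℝ → ℂ} (hχ : Sm h χ) : Up (Adm (L := L) C B) (wX (fun w => L.X (1 / 2 + w)) χ) := by
  intro ε hε
  obtain ⟨F, hF1, hF2⟩ := hF χ hχ
  set X : ℂ → ℂ := fun w => L.X (1 / 2 + w) with hXd
  set W : ℝ := ∫ v : ℝ, wX X χ v with hW
  have hW0 : 0 ≤ W := integral_nonneg fun v => wX_nonneg _ _ _
  have hB0 : 0 < B := by linarith
  obtain ⟨s, hs, hsW⟩ : ∃ s : ℝ, 0 < s ∧ 2 * B * (s * W) ≤ ε / 4 := by
    refine ⟨ε / (8 * B * (W + 1)), by positivity, ?_⟩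
    have e1 : 2 * B * (ε / (8 * B * (W + 1)) * W) = ε / 4 * (W / (W + 1)) := by
      field_simp
      ring
    rw [e1]
    refine mul_le_of_le_one_right (by positivity) ?_
    rw [div_le_one (by positivity)]
    linarith
  have h3 : ∀ᶠ p in Lm L.m C, (∫ v : ℝ, ‖Y23.TT (F p) (v * Complex.I) -
      L.X (1 / 2 + v * Complex.I) * Y23.TT χ (v * Complex.I)‖ ^ 2) < ε / (8 * B * (1 + 1 / s)) :=
    hF2.eventually_lt_const (by positivity)
  obtain ⟨A1, hA1⟩ := Lm_ev (hF1.and h3)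
  have hm : (1 : ℝ) ≤ L.m := Y23.G.m_one (L := L)
  have hcc := Y23.G.cc_pos (L := L)
  have h4 : Tendsto (fun a : ℝ => Real.pi * Real.exp (-(Y23.G.cc (L := L) * Real.exp (2 * a / L.m)))) atTop
      (𝓝 (Real.pi * 0)) := by
    refine Tendsto.const_mul _ (Real.tendsto_exp_neg_atTop_nhds_zero.comp ?_)
    refine Tendsto.const_mul_atTop hcc (Real.tendsto_exp_atTop.comp ?_)
    have h5 : (fun a : ℝ => 2 * a / (L.m : ℝ)) = fun a => (2 / (L.m : ℝ)) * a := by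
      funext a
      ring
    rw [h5]
    exact tendsto_id.const_mul_atTop (by positivity)
  rw [mul_zero] at h4
  obtain ⟨A2, hA2⟩ := (h4.eventually_lt_const (by positivity : 0 < ε / 2)).exists_forall_of_atTop
  refine ⟨max A1 A2, ?_⟩
  intro T hT
  have hTc := (adm_ok (L := L) (C := C) hB).cont _ T hT
  have hTb := (adm_ok (L := L) (C := C) hB).bdd _ T hT
  obtain ⟨a, ν, x, κ, δ, h5, h6, h7, h8, h9, h10, h11, h12, h13, h14, h15, h16, rfl⟩ := hT
  set n : ℕ := ⌈C * a * Real.exp (2 * a / L.m)⌉₊ with hn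
  obtain ⟨⟨hHn, hQQ, hint⟩, hI⟩ := hA1 a n ((le_max_left _ _).trans h5) le_rfl
  have hexp := hA2 a ((le_max_right _ _).trans h5)
  set f : ℝ → ℂ := F (a, n) with hf
  have hfa : Y23.Fa a f := hHn.1
  have hHν : Y23.G.F.Hn a ν f := ⟨hHn.1, hHn.2.1, fun k hk => hHn.2.2 k (lt_of_le_of_lt h9 hk)⟩
  have hpos := h16 f hHν
  -- the value on the trial function
  have hval : ∫ v : ℝ, ‖Y23.TT f (v * Complex.I)‖ ^ 2 * Tm x (κ / 2) v ≤
      Real.pi * Real.exp (-(Y23.G.cc (L := L) * Real.exp (2 * a / L.m))) := by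
    rw [Tm_pos hPar (by linarith) hfa h12]
    exact mul_le_mul_of_nonneg_left (hpos.trans ((le_abs_self _).trans hQQ)) Real.pi_pos.le
  have hcl := close (w := wX X χ) (T := Tm x (κ / 2)) (B := 2 * B) (s := s)
    (f := fun v : ℝ => Y23.TT f (v * Complex.I))
    (g := fun v : ℝ => X (v * Complex.I) * Y23.TT χ (v * Complex.I)) hs hTc hTb
    (TT_cont hfa) ((X_cont hX).mul (TT_cont (fa_sm hχ))) (fun v => rfl) (wX_int hX hχ) hint
  have h17 := (abs_le.1 hcl).1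
  have h18 : 2 * B * ((1 + 1 / s) * ∫ v : ℝ, ‖Y23.TT f (v * Complex.I) -
      X (v * Complex.I) * Y23.TT χ (v * Complex.I)‖ ^ 2) ≤ ε / 4 := by
    rw [lt_div_iff₀ (by positivity)] at hI
    have e1 : 2 * B * ((1 + 1 / s) * ∫ v : ℝ, ‖Y23.TT f (v * Complex.I) -
      X (v * Complex.I) * Y23.TT χ (v * Complex.I)‖ ^ 2) = (∫ v : ℝ, ‖Y23.TT f (v * Complex.I) -
      X (v * Complex.I) * Y23.TT χ (v * Complex.I)‖ ^ 2) * (8 * B * (1 + 1 / s)) / 4 := by ring
    rw [e1]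
    exact (div_le_div_of_nonneg_right hI.le (by norm_num))
  rw [mul_add] at h17
  linarith

end Pool.Agent.Q211.PG
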