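import Pool.Agent.Q286.PG.Stm
import Pool.Agent.Q211.PR.Bnd

set_option autoImplicit false

/-!
# Project PRG: families of multipliers for a general completed L-function (abstract part)

The general lemmas on families of multipliers (`FamOK`, `Up`) are those of `Pool/Agent/Q211/PR/Bnd1.lean`.
-/

open Polynomial Filter Topology Finset MeasureTheory
open Pool.Agent.Q240.PR (Sm S_Poly S_Ker S_Par)
open Pool.Agent.Q211.PR (FamOK Up prod_int prod_bd up_approx up_pos fa_sm TT_bd TT_cont line_cont poly_exp exp_int moll Sp)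
open Pool.Agent.Q286.PG

namespace Pool.Agent.Q211.PG

noncomputable def X2 (X : ℂ → ℂ) (v : ℝ) : ℝ := ‖X (v * Complex.I)‖ ^ 2

theorem X2_nonneg (X : ℂ → ℂ) (v : ℝ) : 0 ≤ X2 X v := by
  unfold X2
  positivity

theorem X_cont {X : ℂ → ℂ} (hX : Dec X) : Continuous (fun v : ℝ => X (v * Complex.I)) :=
  hX.diff.continuous.comp line_cont

theorem X2_cont {X : ℂ → ℂ} (hX : Dec X) : Continuous (X2 X) := ((X_cont hX).norm).pow 2

theorem X2_exp {X : ℂ → ℂ} (hX : Dec X) :
    ∃ C κ : ℝ, 0 < C ∧ 0 < κ ∧ ∀ v : ℝ, X2 X v ≤ C * Real.exp (-(κ * |v|)) := by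
  obtain ⟨C, κ, hκ, H⟩ := hX.dec
  refine ⟨C ^ 2 + 1, 2 * κ, by positivity, by positivity, fun v => ?_⟩
  unfold X2
  calc ‖X (v * Complex.I)‖ ^ 2 ≤ (C * Real.exp (-(κ * |v|))) ^ 2 :=
        pow_le_pow_left₀ (norm_nonneg _) (H v) 2
    _ = C ^ 2 * Real.exp (-(2 * κ * |v|)) := by
        rw [mul_pow, ← Real.exp_nat_mul]
        congr 2
        push_cast
        ring
    _ ≤ _ := mul_le_mul_of_nonneg_right (by linarith) (Real.exp_pos _).le

theorem exp_int' {κ : ℝ} (hκ : 0 < κ) : Integrable (fun v : ℝ => Real.exp (-(κ * |v|))) := by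
  have h1 := exp_int.comp_mul_left' (R := 2 * κ) (by positivity)
  refine h1.congr (Eventually.of_forall fun v => ?_)
  simp only
  rw [abs_mul, abs_of_pos (by positivity : 0 < 2 * κ)]
  congr 2
  ring

theorem X2P_int {X : ℂ → ℂ} (hX : Dec X) (P : ℝ[X]) : Integrable (fun v : ℝ => X2 X v * P.eval v ^ 2) := by
  obtain ⟨C1, κ, hC1, hκ, h1⟩ := X2_exp hX
  obtain ⟨C2, hC2, h2⟩ := poly_exp P (κ / 4) (by positivity)
  refine ((exp_int' (κ := κ / 2) (by positivity)).const_mul (C1 * C2 ^ 2)).mono'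
    (((X2_cont hX).mul (P.continuous.pow 2)).aestronglyMeasurable) (Eventually.of_forall fun v => ?_)
  have h0 := X2_nonneg X v
  rw [Real.norm_of_nonneg (by positivity)]
  have h3 : P.eval v ^ 2 ≤ C2 ^ 2 * Real.exp (κ / 2 * |v|) := by
    calc P.eval v ^ 2 = |P.eval v| ^ 2 := (sq_abs _).symm
      _ ≤ (C2 * Real.exp (κ / 4 * |v|)) ^ 2 := pow_le_pow_left₀ (abs_nonneg _) (h2 v) 2
      _ = C2 ^ 2 * Real.exp (κ / 2 * |v|) := by
          rw [mul_pow, ← Real.exp_nat_mul]
          congr 2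
          push_cast
          ring
  calc X2 X v * P.eval v ^ 2 ≤ (C1 * Real.exp (-(κ * |v|))) * (C2 ^ 2 * Real.exp (κ / 2 * |v|)) :=
        mul_le_mul (h1 v) h3 (by positivity) (by positivity)
    _ = C1 * C2 ^ 2 * (Real.exp (-(κ * |v|)) * Real.exp (κ / 2 * |v|)) := by ring
    _ = C1 * C2 ^ 2 * Real.exp (-(κ / 2 * |v|)) := by
        rw [← Real.exp_add]
        congr 2
        ring

theorem X2_ae {X : ℂ → ℂ} (hX : Dec X) : ∀ᵐ v : ℝ, 0 < X2 X v := by
  have hAC : AnalyticOnNhd ℂ X Set.univ := fun z _ => hX.diff.analyticAt z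
  have hA : AnalyticOnNhd ℝ (fun v : ℝ => X (v * Complex.I)) Set.univ := by
    intro v _
    have h1 : AnalyticAt ℂ X ((v : ℂ) * Complex.I) := hX.diff.analyticAt _
    have h2 : AnalyticAt ℝ (fun v : ℝ => (v : ℂ) * Complex.I) v :=
      (Complex.ofRealCLM.analyticAt v).mul analyticAt_const
    exact AnalyticAt.fun_comp (h1.restrictScalars (𝕜 := ℝ)) h2
  obtain ⟨v0, hv0⟩ : ∃ v0 : ℝ, (fun v : ℝ => X (v * Complex.I)) v0 ≠ 0 := by
    by_contra hne
    push Not at hne
    obtain ⟨w, hw⟩ := hX.ne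
    apply hw
    have hfr : ∃ᶠ z in 𝓝[≠] (0 : ℂ), X z = 0 := by
      rw [Filter.frequently_iff]
      intro U hU
      rw [mem_nhdsWithin] at hU
      obtain ⟨V, hVo, hV0, hVU⟩ := hU
      have h1 : Tendsto (fun v : ℝ => (v : ℂ) * Complex.I) (𝓝 0) (𝓝 0) := by
        have := line_cont.tendsto 0
        simpa using this
      have h2 : ∀ᶠ v : ℝ in 𝓝 0, (v : ℂ) * Complex.I ∈ V := h1.eventually (hVo.mem_nhds hV0)
      have h3 : ∀ᶠ v : ℝ in 𝓝[≠] 0, (v : ℂ) * Complex.I ∈ V := h2.filter_mono nhdsWithin_le_nhds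
      obtain ⟨v, hv1, hv2⟩ := (h3.and self_mem_nhdsWithin).exists
      refine ⟨(v : ℂ) * Complex.I, hVU ⟨hv1, ?_⟩, hne v⟩
      intro h4
      rw [Set.mem_singleton_iff, mul_eq_zero] at h4
      rcases h4 with h4 | h4
      · exact hv2 (by simpa using h4)
      · exact Complex.I_ne_zero h4
    exact hAC.eqOn_zero_of_preconnected_of_frequently_eq_zero isPreconnected_univ (Set.mem_univ 0) hfr (Set.mem_univ w)
  have h1 := hA.preimage_zero_mem_codiscrete hv0
  have h2 := ae_restrict_le_codiscreteWithin (μ := (volume : Measure ℝ)) MeasurableSet.univ h1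
  rw [Measure.restrict_univ] at h2
  filter_upwards [h2] with v hv
  have h3 : X (v * Complex.I) ≠ 0 := hv
  unfold X2
  positivity

/-- the limit of the squares -/
noncomputable def wX (X : ℂ → ℂ) (χ : ℝ → ℂ) (v : ℝ) : ℝ := ‖X (v * Complex.I) * Y23.TT χ (v * Complex.I)‖ ^ 2

theorem wX_nonneg (X : ℂ → ℂ) (χ : ℝ → ℂ) (v : ℝ) : 0 ≤ wX X χ v := by
  unfold wX
  positivity

theorem wX_cont {X : ℂ → ℂ} (hX : Dec X) {h : ℝ} {χ : ℝ → ℂ} (hχ : Sm h χ) : Continuous (wX X χ) := by
  unfold wX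
  exact (((X_cont hX).mul (TT_cont (fa_sm hχ))).norm).pow 2

theorem wX_int {X : ℂ → ℂ} (hX : Dec X) {h : ℝ} {χ : ℝ → ℂ} (hχ : Sm h χ) : Integrable (wX X χ) := by
  set M : ℝ := ∫ x : ℝ, ‖χ x‖ with hM
  have h1 := X2P_int hX 1
  simp only [eval_one, one_pow, mul_one] at h1
  refine (h1.mul_const (M ^ 2)).mono' (wX_cont hX hχ).aestronglyMeasurable (Eventually.of_forall fun v => ?_)
  rw [Real.norm_of_nonneg (wX_nonneg X χ v)]
  unfold wX X2
  rw [norm_mul, mul_pow]
  exact mul_le_mul_of_nonneg_left (pow_le_pow_left₀ (norm_nonneg _) (TT_bd χ v) 2) (by positivity)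

/-- polynomials -/
theorem up_poly {X : ℂ → ℂ} (hX : Dec X) {Fm : ℝ → (ℝ → ℝ) → Prop} {B : ℝ} (ok : FamOK Fm B) (hB : 0 < B) {h : ℝ}
    (hh : 0 < h) (hw : ∀ χ : ℝ → ℂ, Sm h χ → Up Fm (wX X χ)) (P : ℝ[X]) : Up Fm (fun v => X2 X v * P.eval v ^ 2) := by
  refine up_approx ok hB (X2P_int hX P) fun ε hε => ?_
  obtain ⟨ψ, hψ1, hψ2, hψ3⟩ := moll hh
  have h1 : ∀ n, ∃ χ : ℝ → ℂ, Sp (h / 2) χ ∧
      ∀ v : ℝ, Y23.TT χ (v * Complex.I) = P.eval v * Y23.TT (ψ n) (v * Complex.I) := fun n =>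
    Sp.poly P (ψ n) (hψ1 n)
  choose χ hχ1 hχ2 using h1
  have hsm : ∀ n, Sm h (χ n) := fun n => (hχ1 n).sm (by linarith)
  have hwn : ∀ n v, wX X (χ n) v = X2 X v * P.eval v ^ 2 * ‖Y23.TT (ψ n) (v * Complex.I)‖ ^ 2 := by
    intro n v
    unfold wX X2
    rw [hχ2, norm_mul, norm_mul, Complex.norm_real, Real.norm_eq_abs, mul_pow, mul_pow, sq_abs]
    ring
  have hwi : ∀ n, Integrable (wX X (χ n)) := fun n => wX_int hX (hsm n)
  have hdiff : ∀ n v, |X2 X v * P.eval v ^ 2 - wX X (χ n) v| ≤ X2 X v * P.eval v ^ 2 := by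
    intro n v
    rw [hwn]
    have h2 : ‖Y23.TT (ψ n) (v * Complex.I)‖ ^ 2 ≤ 1 := pow_le_one₀ (norm_nonneg _) (hψ2 n v)
    have h3 : 0 ≤ ‖Y23.TT (ψ n) (v * Complex.I)‖ ^ 2 := by positivity
    have h4 : 0 ≤ X2 X v * P.eval v ^ 2 := mul_nonneg (X2_nonneg X v) (by positivity)
    rw [abs_of_nonneg (by nlinarith)]
    nlinarith
  have hlim : Tendsto (fun n => ∫ v, |X2 X v * P.eval v ^ 2 - wX X (χ n) v|) atTop (𝓝 (∫ _ : ℝ, (0 : ℝ))) := by
    refine tendsto_integral_of_dominated_convergence (fun v => X2 X v * P.eval v ^ 2) (fun n => ?_) (X2P_int hX P)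
      (fun n => Eventually.of_forall fun v => ?_) (Eventually.of_forall fun v => ?_)
    · exact ((X2P_int hX P).sub (hwi n)).abs.aestronglyMeasurable
    · rw [Real.norm_eq_abs, abs_abs]
      exact hdiff n v
    · have h2 : Tendsto (fun n => X2 X v * P.eval v ^ 2 - X2 X v * P.eval v ^ 2 *
          ‖Y23.TT (ψ n) (v * Complex.I)‖ ^ 2) atTop (𝓝 (X2 X v * P.eval v ^ 2 - X2 X v * P.eval v ^ 2 * ‖(1 : ℂ)‖ ^ 2)) :=
        tendsto_const_nhds.sub (((hψ3 v).norm.pow 2).const_mul _)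
      have h3 := h2.abs
      rw [norm_one, one_pow, mul_one, sub_self, abs_zero] at h3
      refine h3.congr fun n => ?_
      rw [hwn]
  rw [integral_zero] at hlim
  obtain ⟨n, hn⟩ := (hlim.eventually_lt_const hε).exists
  exact ⟨wX X (χ n), hwi n, hw _ (hsm n), hn.le⟩

/-- squares of continuous functions with compact support -/
theorem up_sq (hPoly : S_Poly) {X : ℂ → ℂ} (hX : Dec X) {Fm : ℝ → (ℝ → ℝ) → Prop} {B : ℝ} (ok : FamOK Fm B) (hB : 0 < B)
    (hP : ∀ P : ℝ[X], Up Fm (fun v => X2 X v * P.eval v ^ 2)) {g : ℝ → ℝ} (hg : Continuous g)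
    (hgs : HasCompactSupport g) : Up Fm (fun v => X2 X v * g v ^ 2) := by
  have hgi : Integrable (fun v => X2 X v * g v ^ 2) := by
    refine ((X2_cont hX).mul (hg.pow 2)).integrable_of_hasCompactSupport ?_
    refine hgs.mono fun x hx => ?_
    rw [Function.mem_support] at hx ⊢
    intro h
    apply hx
    show X2 X x * g x ^ 2 = 0
    rw [h]
    ring
  refine up_approx ok hB hgi fun ε hε => ?_
  set W : ℝ := ∫ v, X2 X v * g v ^ 2 with hW
  have hW0 : 0 ≤ W := integral_nonneg fun v => mul_nonneg (X2_nonneg X v) (by positivity)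
  obtain ⟨s, hs, hsW⟩ : ∃ s : ℝ, 0 < s ∧ s * W ≤ ε / 2 := by
    refine ⟨ε / (2 * (W + 1)), by positivity, ?_⟩
    have e1 : ε / (2 * (W + 1)) * W = ε / 2 * (W / (W + 1)) := by
      field_simp
    rw [e1]
    refine mul_le_of_le_one_right (by positivity) ?_
    rw [div_le_one (by positivity)]
    linarith
  obtain ⟨C, κ, hC, hκ, hXe⟩ := X2_exp hX
  obtain ⟨P, hPP⟩ := hPoly (X2 X) C κ (X2_cont hX) (X2_nonneg X) hκ hXe g hg hgs (ε / (2 * (1 + 1 / s))) (by positivity)
  have hPi := X2P_int hX P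
  have hd : Integrable (fun v => X2 X v * (P.eval v - g v) ^ 2) := by
    refine ((hPi.const_mul 2).add (hgi.const_mul 2)).mono'
      ((X2_cont hX).mul ((P.continuous.sub hg).pow 2)).aestronglyMeasurable (Eventually.of_forall fun v => ?_)
    have h0 := X2_nonneg X v
    rw [Real.norm_of_nonneg (by positivity)]
    simp only [Pi.add_apply]
    have h1 : (P.eval v - g v) ^ 2 ≤ 2 * P.eval v ^ 2 + 2 * g v ^ 2 := by
      nlinarith [sq_nonneg (P.eval v + g v)]
    nlinarith [mul_le_mul_of_nonneg_left h1 h0]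
  refine ⟨fun v => X2 X v * P.eval v ^ 2, hPi, hP P, ?_⟩
  calc ∫ v, |X2 X v * g v ^ 2 - X2 X v * P.eval v ^ 2| ≤
        ∫ v, ((1 + 1 / s) * (X2 X v * (P.eval v - g v) ^ 2) + s * (X2 X v * g v ^ 2)) := by
        refine integral_mono (hgi.sub hPi).abs ((hd.const_mul _).add (hgi.const_mul s)) fun v => ?_
        simp only
        have h0 := X2_nonneg X v
        have h1 : |g v ^ 2 - P.eval v ^ 2| ≤ (1 + 1 / s) * (P.eval v - g v) ^ 2 + s * g v ^ 2 := by
          set x := P.eval v - g v with hx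
          have e1 : g v ^ 2 - P.eval v ^ 2 = -(x ^ 2 + 2 * x * g v) := by
            rw [hx]
            ring
          rw [e1, abs_neg]
          have h2 : |2 * x * g v| ≤ 1 / s * x ^ 2 + s * g v ^ 2 := by
            have h3 : 0 ≤ (|x| - s * |g v|) ^ 2 / s := by positivity
            have h4 : (|x| - s * |g v|) ^ 2 / s = 1 / s * |x| ^ 2 + s * |g v| ^ 2 - 2 * (|x| * |g v|) := by
              field_simp
              ring
            rw [sq_abs, sq_abs] at h4
            rw [abs_mul, abs_mul, abs_two]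
            linarith
          calc |x ^ 2 + 2 * x * g v| ≤ |x ^ 2| + |2 * x * g v| := abs_add_le _ _
            _ ≤ x ^ 2 + (1 / s * x ^ 2 + s * g v ^ 2) := by
                rw [abs_of_nonneg (sq_nonneg x)]
                linarith
            _ = _ := by ring
        rw [← mul_sub, abs_mul, abs_of_nonneg h0]
        calc X2 X v * |g v ^ 2 - P.eval v ^ 2| ≤ X2 X v * ((1 + 1 / s) * (P.eval v - g v) ^ 2 + s * g v ^ 2) :=
              mul_le_mul_of_nonneg_left h1 h0
          _ = _ := by ring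
    _ = (1 + 1 / s) * (∫ v, X2 X v * (P.eval v - g v) ^ 2) + s * W := by
        rw [integral_add (hd.const_mul _) (hgi.const_mul s), integral_const_mul, integral_const_mul]
    _ ≤ (1 + 1 / s) * (ε / (2 * (1 + 1 / s))) + ε / 2 :=
        add_le_add (mul_le_mul_of_nonneg_left hPP (by positivity)) hsW
    _ = ε := by
        field_simp
        ring

/-- nonnegative continuous functions with compact support -/
theorem up_cc {X : ℂ → ℂ} (hX : Dec X) {Fm : ℝ → (ℝ → ℝ) → Prop} {B : ℝ} (ok : FamOK Fm B) (hB : 0 < B)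
    (hS : ∀ g : ℝ → ℝ, Continuous g → HasCompactSupport g → Up Fm (fun v => X2 X v * g v ^ 2)) {φ : ℝ → ℝ}
    (hφ : Continuous φ) (hφs : HasCompactSupport φ) (hφ0 : ∀ v, 0 ≤ φ v) : Up Fm φ := by
  have hφi : Integrable φ := hφ.integrable_of_hasCompactSupport hφs
  refine up_approx ok hB hφi fun ε hε => ?_
  have hkp : ∀ k : ℕ, (0 : ℝ) < 1 / ((k : ℝ) + 1) := fun k => by positivity
  have hden : ∀ (k : ℕ) (v : ℝ), 0 < X2 X v + 1 / ((k : ℝ) + 1) := fun k v => by
    have := X2_nonneg X v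
    have := hkp k
    linarith
  have hgc : ∀ k : ℕ, Continuous (fun v => Real.sqrt (φ v / (X2 X v + 1 / ((k : ℝ) + 1)))) := fun k =>
    Real.continuous_sqrt.comp (hφ.div ((X2_cont hX).add continuous_const) fun v => (hden k v).ne')
  have hgs : ∀ k : ℕ, HasCompactSupport (fun v => Real.sqrt (φ v / (X2 X v + 1 / ((k : ℝ) + 1)))) := fun k => by
    refine hφs.mono fun x hx => ?_
    rw [Function.mem_support] at hx ⊢
    intro h
    apply hx
    rw [h]
    simp
  have hval : ∀ (k : ℕ) (v : ℝ), X2 X v * Real.sqrt (φ v / (X2 X v + 1 / ((k : ℝ) + 1))) ^ 2 =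
      φ v * (X2 X v / (X2 X v + 1 / ((k : ℝ) + 1))) := fun k v => by
    rw [Real.sq_sqrt (div_nonneg (hφ0 v) (hden k v).le)]
    ring
  have hr : ∀ (k : ℕ) (v : ℝ), 0 ≤ X2 X v / (X2 X v + 1 / ((k : ℝ) + 1)) ∧ X2 X v / (X2 X v + 1 / ((k : ℝ) + 1)) ≤ 1 :=
    fun k v => ⟨div_nonneg (X2_nonneg X v) (hden k v).le, (div_le_one (hden k v)).2 (by linarith [hkp k])⟩
  have hi : ∀ k : ℕ, Integrable (fun v => X2 X v * Real.sqrt (φ v / (X2 X v + 1 / ((k : ℝ) + 1))) ^ 2) := fun k => by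
    refine hφi.mono' ((X2_cont hX).mul ((hgc k).pow 2)).aestronglyMeasurable (Eventually.of_forall fun v => ?_)
    rw [hval, Real.norm_of_nonneg (mul_nonneg (hφ0 v) (hr k v).1)]
    exact mul_le_of_le_one_right (hφ0 v) (hr k v).2
  have hlim : Tendsto (fun k : ℕ => ∫ v, |φ v - X2 X v * Real.sqrt (φ v / (X2 X v + 1 / ((k : ℝ) + 1))) ^ 2|) atTop
      (𝓝 (∫ _ : ℝ, (0 : ℝ))) := by
    refine tendsto_integral_of_dominated_convergence φ (fun n => ?_) hφi
      (fun n => Eventually.of_forall fun v => ?_) ?_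
    · exact (hφi.sub (hi n)).abs.aestronglyMeasurable
    · rw [Real.norm_eq_abs, abs_abs, hval]
      have h1 := hr n v
      have h2 := hφ0 v
      rw [abs_of_nonneg (by nlinarith)]
      nlinarith
    · filter_upwards [X2_ae hX] with v hv
      have h1 : Tendsto (fun k : ℕ => 1 / ((k : ℝ) + 1)) atTop (𝓝 0) := tendsto_one_div_add_atTop_nhds_zero_nat
      have h2 : Tendsto (fun k : ℕ => φ v - φ v * (X2 X v / (X2 X v + 1 / ((k : ℝ) + 1)))) atTop
          (𝓝 (φ v - φ v * (X2 X v / (X2 X v + 0)))) :=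
        tendsto_const_nhds.sub ((tendsto_const_nhds.div (tendsto_const_nhds.add h1) (by
          rw [add_zero]
          exact hv.ne')).const_mul _)
      rw [add_zero, div_self hv.ne', mul_one, sub_self] at h2
      have h3 := h2.abs
      rw [abs_zero] at h3
      refine h3.congr fun k => ?_
      rw [hval]
  rw [integral_zero] at hlim
  obtain ⟨k, hk⟩ := (hlim.eventually_lt_const hε).exists
  exact ⟨_, hi k, hS _ (hgc k) (hgs k), hk.le⟩

/-- all nonnegative integrable functions -/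
theorem up_all (hPoly : S_Poly) {X : ℂ → ℂ} (hX : Dec X) {Fm : ℝ → (ℝ → ℝ) → Prop} {B : ℝ} (ok : FamOK Fm B)
    (hB : 0 < B) {h : ℝ} (hh : 0 < h) (hw : ∀ χ : ℝ → ℂ, Sm h χ → Up Fm (wX X χ)) {φ : ℝ → ℝ} (hφ : Integrable φ)
    (hφ0 : ∀ v, 0 ≤ φ v) : Up Fm φ :=
  up_pos ok hB (fun _ h1 h2 h3 => up_cc hX ok hB (fun _ hg hgs => up_sq hPoly hX ok hB (fun P =>
    up_poly hX ok hB hh hw P) hg hgs) h1 h2 h3) hφ hφ0

/-- both sides, if the integrals with a positive kernel are small from below -/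
theorem two_sided {Fm : ℝ → (ℝ → ℝ) → Prop} {B : ℝ} (ok : FamOK Fm B) (hB : 0 < B)
    (hS : ∀ φ : ℝ → ℝ, Integrable φ → (∀ v, 0 ≤ φ v) → Up Fm φ) {K : ℝ → ℝ} (hK : Integrable K)
    (hK0 : ∀ v, 0 ≤ K v) (hKa : ∀ᵐ v : ℝ, 0 < K v) (hKT : Up Fm (fun v => -K v)) {φ : ℝ → ℝ}
    (hφ : Integrable φ) {ε : ℝ} (hε : 0 < ε) : ∃ A : ℝ, ∀ T, Fm A T → |∫ v, φ v * T v| ≤ ε := by
  -- lower bound for nonnegative functions
  have low : ∀ φ : ℝ → ℝ, Integrable φ → (∀ v, 0 ≤ φ v) → Up Fm (fun v => -φ v) := by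
    intro φ hφ hφ0
    refine up_approx ok hB hφ.neg fun ε hε => ?_
    have hi : ∀ k : ℕ, Integrable (fun v => min (φ v) (k * K v)) := fun k => hφ.inf (hK.const_mul _)
    have hlim : Tendsto (fun k : ℕ => ∫ v, |φ v - min (φ v) (k * K v)|) atTop (𝓝 (∫ _ : ℝ, (0 : ℝ))) := by
      refine tendsto_integral_of_dominated_convergence φ (fun n => ?_) hφ
        (fun n => Eventually.of_forall fun v => ?_) ?_
      · exact (hφ.sub (hi n)).abs.aestronglyMeasurable
      · rw [Real.norm_eq_abs, abs_abs]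
        have h1 : 0 ≤ min (φ v) (n * K v) := le_min (hφ0 v) (mul_nonneg (Nat.cast_nonneg n) (hK0 v))
        have h2 : min (φ v) (n * K v) ≤ φ v := min_le_left _ _
        rw [abs_of_nonneg (by linarith)]
        linarith
      · filter_upwards [hKa] with v hv
        obtain ⟨n, hn⟩ := exists_nat_gt (φ v / K v)
        refine tendsto_const_nhds.congr' ?_
        filter_upwards [eventually_ge_atTop n] with k hk
        have h1 : φ v ≤ k * K v := by
          rw [div_lt_iff₀ hv] at hn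
          have h2 : (n : ℝ) ≤ k := by exact_mod_cast hk
          nlinarith
        rw [min_eq_left h1, sub_self, abs_zero]
    rw [integral_zero] at hlim
    obtain ⟨k, hk⟩ := (hlim.eventually_lt_const hε).exists
    refine ⟨fun v => -min (φ v) (k * K v), (hi k).neg, ?_, ?_⟩
    · intro δ hδ
      obtain ⟨A, hA⟩ := hS (fun v => k * K v - min (φ v) (k * K v)) ((hK.const_mul _).sub (hi k))
        (fun v => sub_nonneg.2 (min_le_right _ _)) (δ / 2) (by positivity)
      obtain ⟨A', hA'⟩ := hKT (δ / 2 / (k + 1)) (by positivity)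
      refine ⟨max A A', fun T hT => ?_⟩
      have hc := ok.cont _ T hT
      have hb := ok.bdd _ T hT
      have h1 := hA T (ok.mono _ _ T (le_max_left _ _) hT)
      have h1' := hA' T (ok.mono _ _ T (le_max_right _ _) hT)
      have hneg : Integrable (fun v => -min (φ v) (k * K v)) := (hi k).neg
      have h2 : ∫ v, (k * K v - min (φ v) (k * K v)) * T v =
          k * (∫ v, K v * T v) + ∫ v, -min (φ v) (k * K v) * T v := by
        rw [← integral_const_mul, ← integral_add ((prod_int hK hc hb).const_mul _) (prod_int hneg hc hb)]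
        refine integral_congr_ae (Eventually.of_forall fun v => ?_)
        simp only
        ring
      have h3 : ∫ v, -K v * T v = -∫ v, K v * T v := by
        rw [← integral_neg]
        exact integral_congr_ae (Eventually.of_forall fun v => by simp only; ring)
      rw [h3] at h1'
      rw [h2] at h1
      have h4 : (k : ℝ) * -(∫ v, K v * T v) ≤ δ / 2 := by
        have hk0 : (0 : ℝ) ≤ k := Nat.cast_nonneg k
        calc (k : ℝ) * -(∫ v, K v * T v) ≤ k * (δ / 2 / (k + 1)) := mul_le_mul_of_nonneg_left h1' hk0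
          _ = δ / 2 * (k / (k + 1)) := by field_simp
          _ ≤ δ / 2 := mul_le_of_le_one_right (by positivity) ((div_le_one (by positivity)).2 (by linarith))
      linarith
    · refine le_trans (le_of_eq ?_) hk.le
      refine integral_congr_ae (Eventually.of_forall fun v => ?_)
      simp only
      rw [show -φ v - -min (φ v) (k * K v) = -(φ v - min (φ v) (k * K v)) by ring, abs_neg]
  -- decomposition
  have hp : Integrable (fun v => max (φ v) 0) := hφ.pos_part
  have hn : Integrable (fun v => max (-φ v) 0) := hφ.neg.pos_part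
  obtain ⟨A1, h1⟩ := hS _ hp (fun v => le_max_right _ _) (ε / 2) (by positivity)
  obtain ⟨A2, h2⟩ := hS _ hn (fun v => le_max_right _ _) (ε / 2) (by positivity)
  obtain ⟨A3, h3⟩ := low _ hp (fun v => le_max_right _ _) (ε / 2) (by positivity)
  obtain ⟨A4, h4⟩ := low _ hn (fun v => le_max_right _ _) (ε / 2) (by positivity)
  refine ⟨max (max A1 A2) (max A3 A4), fun T hT => ?_⟩
  have hc := ok.cont _ T hT
  have hb := ok.bdd _ T hT
  have k1 := h1 T (ok.mono _ _ T ((le_max_left _ _).trans (le_max_left _ _)) hT)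
  have k2 := h2 T (ok.mono _ _ T ((le_max_right _ _).trans (le_max_left _ _)) hT)
  have k3 := h3 T (ok.mono _ _ T ((le_max_left _ _).trans (le_max_right _ _)) hT)
  have k4 := h4 T (ok.mono _ _ T ((le_max_right _ _).trans (le_max_right _ _)) hT)
  have e1 : ∫ v, φ v * T v = (∫ v, max (φ v) 0 * T v) - ∫ v, max (-φ v) 0 * T v := by
    rw [← integral_sub (prod_int hp hc hb) (prod_int hn hc hb)]
    refine integral_congr_ae (Eventually.of_forall fun v => ?_)
    simp only
    rcases le_total (φ v) 0 with h | h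
    · rw [max_eq_right h, max_eq_left (by linarith)]
      ring
    · rw [max_eq_left h, max_eq_right (by linarith)]
      ring
  have e2 : ∫ v, -max (φ v) 0 * T v = -∫ v, max (φ v) 0 * T v := by
    rw [← integral_neg]
    exact integral_congr_ae (Eventually.of_forall fun v => by simp only; ring)
  have e3 : ∫ v, -max (-φ v) 0 * T v = -∫ v, max (-φ v) 0 * T v := by
    rw [← integral_neg]
    exact integral_congr_ae (Eventually.of_forall fun v => by simp only; ring)
  rw [e2] at k3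
  rw [e3] at k4
  rw [e1, abs_le]
  constructor <;> linarith

end Pool.Agent.Q211.PG
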