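import Pool.Agent.Q211.PG.Bnd

set_option autoImplicit false

/-!
# Project PRG: all coefficients, bounded total change: the theorem
-/

open Polynomial Filter Topology Finset MeasureTheory
open Pool.Agent.Q240.PR (Sm S_Poly S_Ker S_Par)
open Pool.Agent.Q211.PR (FamOK Up prod_int prod_bd up_approx up_pos fa_sm TT_bd TT_cont line_cont)
open Pool.Agent.Q286.PG
open scoped FourierTransform ContDiff

namespace Pool.Agent.Q211.PG

/-- Fourier inversion -/
theorem rep {g : ℝ → ℝ} (hg : ∀ k : ℕ, ContDiff ℝ k g) (hs : HasCompactSupport g) :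
    ∃ φ : ℝ → ℂ, Integrable φ ∧ ∀ t : ℝ, ∫ v : ℝ, φ v * Complex.exp (-(t * v * Complex.I)) = (g t : ℂ) := by
  set G : ℝ → ℂ := fun x => (g x : ℂ) with hG
  have hGc : ContDiff ℝ ∞ G := Complex.ofRealCLM.contDiff.comp (contDiff_infty.2 hg)
  have hGs : HasCompactSupport G := hs.comp_left (g := fun x : ℝ => (x : ℂ)) (by simp)
  set GS := hGs.toSchwartzMap hGc with hGS
  have hcoe : (GS : ℝ → ℂ) = G := rfl
  have hGi : Integrable G := hcoe ▸ GS.integrable
  have hFi : Integrable (𝓕 G) := by
    have h1 := (𝓕 GS : SchwartzMap ℝ ℂ).integrable (μ := volume)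
    rw [SchwartzMap.fourier_coe, hcoe] at h1
    exact h1
  have hinv : 𝓕⁻ (𝓕 G) = G := Continuous.fourierInv_fourier_eq hGc.continuous hGi hFi
  have hpi := Real.pi_pos
  refine ⟨fun v => ((1 / (2 * Real.pi) : ℝ) : ℂ) * 𝓕 G (v * (-(2 * Real.pi))⁻¹), ?_, fun t => ?_⟩
  · exact (hFi.comp_mul_right' (inv_ne_zero (neg_ne_zero.2 (by positivity)))).const_mul _
  · have h1 : G t = ∫ ξ : ℝ, Complex.exp (((2 * Real.pi * (t * ξ) : ℝ) : ℂ) * Complex.I) * 𝓕 G ξ := by
      have h2 := congrFun hinv t
      rw [Real.fourierInv_eq'] at h2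
      rw [← h2]
      refine integral_congr_ae (Eventually.of_forall fun ξ => ?_)
      simp only [smul_eq_mul, RCLike.inner_apply, conj_trivial]
    have h3 := Measure.integral_comp_mul_left (fun v : ℝ => ((1 / (2 * Real.pi) : ℝ) : ℂ) *
      𝓕 G (v * (-(2 * Real.pi))⁻¹) * Complex.exp (-(t * v * Complex.I))) (-(2 * Real.pi))
    have h4 : |(-(2 * Real.pi))⁻¹| = 1 / (2 * Real.pi) := by
      rw [inv_neg, abs_neg, abs_of_pos (by positivity), one_div]
    rw [h4] at h3
    have h5 : ∫ x : ℝ, (fun v : ℝ => ((1 / (2 * Real.pi) : ℝ) : ℂ) *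
      𝓕 G (v * (-(2 * Real.pi))⁻¹) * Complex.exp (-(t * v * Complex.I))) (-(2 * Real.pi) * x) =
        ((1 / (2 * Real.pi) : ℝ) : ℂ) * G t := by
      rw [h1, ← integral_const_mul]
      refine integral_congr_ae (Eventually.of_forall fun ξ => ?_)
      simp only
      have h6 : -(2 * Real.pi) * ξ * (-(2 * Real.pi))⁻¹ = ξ := by
        field_simp
      rw [h6, mul_assoc, mul_comm (𝓕 G ξ)]
      congr 3
      push_cast
      ring
    rw [h5] at h3
    have h7 : ((1 / (2 * Real.pi) : ℝ) : ℂ) ≠ 0 := by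
      rw [Complex.ofReal_ne_zero]
      positivity
    rw [Complex.real_smul] at h3
    exact (mul_left_cancel₀ h7 h3).symm

/-- an even kernel -/
theorem ker (hKer : S_Ker) : ∃ K : ℝ → ℝ, Integrable K ∧ (∀ v, 0 ≤ K v) ∧ (∀ᵐ v : ℝ, 0 < K v) ∧ 0 < ∫ v, K v ∧
    ∀ s : ℝ, Real.log 2 ≤ |s| → ∫ v : ℝ, (K v : ℂ) * Complex.exp (-(s * v * Complex.I)) = 0 := by
  obtain ⟨K, hKc, hK0, -, hKa, hKi, hKcos, -⟩ := hKer (Real.log 2) (Real.log_pos one_lt_two)
  have hKi' : Integrable K := by
    refine hKi.mono' hKc.aestronglyMeasurable (Eventually.of_forall fun v => ?_)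
    rw [Real.norm_of_nonneg (hK0 v)]
    exact le_mul_of_one_le_left (hK0 v) (by nlinarith [sq_nonneg v])
  have hKn : Integrable (fun v => K (-v)) := hKi'.comp_neg
  have hI : Integrable (fun v => K v + K (-v)) := hKi'.add hKn
  have h0 : ∀ v, 0 ≤ K v + K (-v) := fun v => add_nonneg (hK0 _) (hK0 _)
  have ha : ∀ᵐ v : ℝ, 0 < K v + K (-v) := by
    filter_upwards [hKa] with v hv
    linarith [hK0 (-v)]
  refine ⟨fun v => K v + K (-v), hI, h0, ha, ?_, fun s hs => ?_⟩
  · rw [integral_pos_iff_support_of_nonneg h0 hI, pos_iff_ne_zero]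
    intro h1
    have h2 : ∀ᵐ v : ℝ, v ∉ Function.support (fun v => K v + K (-v)) := measure_eq_zero_iff_ae_notMem.1 h1
    have h3 : ∀ᵐ _ : ℝ, False := by
      filter_upwards [ha, h2] with v h4 h5
      exact h5 (Function.mem_support.2 h4.ne')
    rw [ae_iff] at h3
    simp at h3
  · have hc : ∀ t : ℝ, Integrable (fun v : ℝ => (K v : ℂ) * Complex.exp (-(t * v * Complex.I))) := fun t =>
      fexp_int (φ := fun v => (K v : ℂ)) hKi'.ofReal t
    have hc2 : Integrable (fun v : ℝ => (K (-v) : ℂ) * Complex.exp (-(s * v * Complex.I))) :=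
      fexp_int (φ := fun v => (K (-v) : ℂ)) hKn.ofReal s
    have h1 : ∫ v : ℝ, (K (-v) : ℂ) * Complex.exp (-(s * v * Complex.I)) =
        ∫ v : ℝ, (K v : ℂ) * Complex.exp (-((-s : ℝ) * v * Complex.I)) := by
      rw [← integral_neg_eq_self (fun v : ℝ => (K v : ℂ) * Complex.exp (-((-s : ℝ) * v * Complex.I)))]
      refine integral_congr_ae (Eventually.of_forall fun v => ?_)
      simp only
      congr 2
      push_cast
      ring
    have h2 : ∀ v : ℝ, ((K v + K (-v) : ℝ) : ℂ) * Complex.exp (-(s * v * Complex.I)) =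
        (K v : ℂ) * Complex.exp (-(s * v * Complex.I)) + (K (-v) : ℂ) * Complex.exp (-(s * v * Complex.I)) := by
      intro v
      push_cast
      ring
    simp only [h2]
    rw [integral_add (hc s) hc2, h1, ← integral_add (hc s) (hc (-s))]
    have h3 : ∀ v : ℝ, (K v : ℂ) * Complex.exp (-(s * v * Complex.I)) + (K v : ℂ) * Complex.exp (-((-s : ℝ) * v * Complex.I)) =
        ((2 * (K v * Real.cos (s * v)) : ℝ) : ℂ) := by
      intro v
      push_cast
      have h4 := Complex.two_cos ((s : ℂ) * v)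
      have h5 : -(-(s : ℂ) * v * Complex.I) = s * v * Complex.I := by ring
      have h6 : -((s : ℂ) * v * Complex.I) = -(s * v) * Complex.I := by ring
      rw [h5, h6]
      linear_combination -(K v : ℂ) * h4
    simp only [h3]
    rw [integral_complex_ofReal, integral_const_mul, hKcos s hs]
    simp

/-- the integral with the even kernel -/
theorem ker_T {K : ℝ → ℝ} (hK : Integrable K)
    (hKe : ∀ s : ℝ, Real.log 2 ≤ |s| → ∫ v : ℝ, (K v : ℂ) * Complex.exp (-(s * v * Complex.I)) = 0)
    {x : ℕ → ℂ} (h0 : x 0 = 0) (h1 : x 1 = 0) (hx : Summable fun n => ‖x n‖) (κ : ℝ) :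
    ∫ v, K v * Tm x κ v = κ * ∫ v, K v := by
  rw [Tm_int hK hx]
  have h2 : ∀ n : ℕ, x n * ∫ v : ℝ, (K v : ℂ) * Complex.exp (-(Real.log n * v * Complex.I)) = 0 := by
    intro n
    rcases Nat.lt_or_ge n 2 with hn | hn
    · have : n = 0 ∨ n = 1 := by omega
      rcases this with rfl | rfl
      · rw [h0, zero_mul]
      · rw [h1, zero_mul]
    · have h3 : Real.log 2 ≤ Real.log n := Real.log_le_log two_pos (by exact_mod_cast hn)
      rw [hKe (Real.log n) (h3.trans (le_abs_self _)), mul_zero]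
  simp only [h2, tsum_zero, Complex.zero_re, add_zero]

theorem bndG (hTr : S_TrXG) (hDec : S_DecG) (hPoly : S_Poly) (hKer : S_Ker) (hPar : S_ParC) : S_BndG := by
  intro L
  have hX : Dec fun w => L.X (1 / 2 + w) := hDec
  have hcc := Y23.G.cc_pos (L := L)
  obtain ⟨h, C, hh, hC, hF⟩ := hTr (Y23.G.cc (L := L)) (by linarith)
  refine ⟨C, hC, fun B ε n0 hn0 hε => ?_⟩
  obtain ⟨B', hB', hBB'⟩ : ∃ B' : ℝ, 1 ≤ B' ∧ B ≤ B' := ⟨max B 1, le_max_right _ _, le_max_left _ _⟩
  have hB0 : (0 : ℝ) < 2 * B' := by linarith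
  obtain ⟨K, hK, hK0, hKa, hKp, hKe⟩ := ker hKer
  have ok := adm_ok (L := L) (C := C) hB'
  have hp : ∀ φ : ℝ → ℝ, Integrable φ → (∀ v, 0 ≤ φ v) → Up (Adm (L := L) C B') φ := fun φ h1 h2 =>
    up_all hPoly hX ok hB0 hh (fun χ hχ => up_w hPar hX hB' hF hχ) h1 h2
  set J : ℝ := ∫ v, K v with hJ
  have hKT : Up (Adm (L := L) C B') (fun v => -K v) := by
    intro e he
    refine ⟨J / e, ?_⟩
    rintro T ⟨a, ν, x, κ, δ, h5, h6, h7, h8, h9, h10, h11, h12, h13, h14, h15, h16, rfl⟩
    have e1 : ∫ v, -K v * Tm x (κ / 2) v = -∫ v, K v * Tm x (κ / 2) v := by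
      rw [← integral_neg]
      exact integral_congr_ae (Eventually.of_forall fun v => by simp only; ring)
    rw [e1, ker_T hK hKe h10 h11 h12]
    have h17 : δ * (J / e) ≤ 1 := (mul_le_mul_of_nonneg_left (le_max_left _ _) h7).trans h8
    have h18 : δ * J ≤ e := by
      have e2 : δ * J = δ * (J / e) * e := by field_simp
      rw [e2]
      exact mul_le_of_le_one_left he.le h17
    have h19 : -(κ / 2 * J) ≤ δ / 2 * J := by nlinarith
    calc -(κ / 2 * J) ≤ δ / 2 * J := h19
      _ = δ * J / 2 := by ring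
      _ ≤ e := by linarith
  -- the bump function
  set c : ℝ := Real.log n0 with hc
  have hn0r : (2 : ℝ) ≤ n0 := by exact_mod_cast hn0
  set r : ℝ := Real.log ((n0 : ℝ) + 1) - Real.log n0 with hr
  have hr0 : 0 < r := sub_pos.2 (Real.log_lt_log (by linarith) (by linarith))
  have hrc : r ≤ c := by
    have h1 : Real.log ((n0 : ℝ) + 1) ≤ Real.log ((n0 : ℝ) * n0) := Real.log_le_log (by linarith) (by nlinarith)
    rw [Real.log_mul (by linarith) (by linarith)] at h1
    rw [hr, hc]
    linarith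
  set f : ContDiffBump c := ⟨r / 2, r, by positivity, by linarith⟩ with hf
  have hg0 : ∀ t : ℝ, r ≤ |t - c| → f t = 0 := fun t ht => f.zero_of_le_dist (by rw [Real.dist_eq]; exact ht)
  have hfc : f c = 1 := f.one_of_mem_closedBall (by
    rw [Metric.mem_closedBall, dist_self]
    exact (half_pos hr0).le)
  have hneg : ∀ t : ℝ, t ≤ 0 → f t = 0 := fun t ht => hg0 t (by
    rw [abs_sub_comm]
    exact le_trans (by linarith) (le_abs_self _))
  have hother : ∀ n : ℕ, 2 ≤ n → n ≠ n0 → f (Real.log n) = 0 := by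
    intro n hn hne
    have hnr : (2 : ℝ) ≤ n := by exact_mod_cast hn
    refine hg0 _ ?_
    rcases Nat.lt_or_gt_of_ne hne with h1 | h1
    · have h2 : (n : ℝ) + 1 ≤ n0 := by exact_mod_cast h1
      have h3 : r ≤ c - Real.log n := by
        rw [hr, hc, sub_le_sub_iff]
        rw [← Real.log_mul (by linarith) (by linarith), ← Real.log_mul (by linarith) (by linarith)]
        exact Real.log_le_log (by positivity) (by nlinarith)
      rw [abs_sub_comm]
      exact h3.trans (le_abs_self _)
    · have h2 : (n0 : ℝ) + 1 ≤ n := by exact_mod_cast h1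
      have h3 : r ≤ Real.log n - c := by
        rw [hr, hc]
        exact sub_le_sub_right (Real.log_le_log (by linarith) h2) _
      exact h3.trans (le_abs_self _)
  obtain ⟨φ, hφ, hφg⟩ := rep (g := f) (fun k => f.contDiff) f.hasCompactSupport
  have hφre : Integrable (fun v => (φ v).re) := hφ.re
  have hφim : Integrable (fun v => (φ v).im) := hφ.im
  obtain ⟨A1, hA1⟩ := two_sided ok hB0 hp hK hK0 hKa hKT hφre (by positivity : 0 < ε / 4)
  obtain ⟨A2, hA2⟩ := two_sided ok hB0 hp hK hK0 hKa hKT hφim (by positivity : 0 < ε / 4)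
  obtain ⟨A3, hA3⟩ := hp K hK hK0 (ε / 2 * J) (by positivity)
  set A : ℝ := max (max A1 A2) (max A3 1) with hA
  have hA1' : (1 : ℝ) ≤ A := (le_max_right _ _).trans (le_max_right _ _)
  refine ⟨A, 1 / A, by positivity, fun a ν ha hν x κ h0 h1 hx hxB hκ1 hκ2 hPos => ?_⟩
  have had : Adm (L := L) C B' A (Tm x (κ / 2)) := by
    refine ⟨a, ν, x, κ, 1 / A, ha, hA1'.trans ha, by positivity, ?_, hν, h0, h1, hx, hxB.trans hBB', hκ1,
      hκ2.trans hBB', hPos, rfl⟩
    rw [max_eq_left hA1', one_div, inv_mul_cancel₀ (by positivity)]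
  constructor
  · have h2 := hA3 _ (ok.mono _ _ _ ((le_max_left _ _).trans (le_max_right _ _)) had)
    rw [ker_T hK hKe h0 h1 hx] at h2
    have h3 : κ * J ≤ ε * J := by linarith
    exact le_of_mul_le_mul_right h3 hKp
  · have k1 := hA1 _ (ok.mono _ _ _ ((le_max_left _ _).trans (le_max_left _ _)) had)
    have k2 := hA2 _ (ok.mono _ _ _ ((le_max_right _ _).trans (le_max_left _ _)) had)
    have hTc := ok.cont _ _ had
    have hTb := ok.bdd _ _ had
    set T : ℝ → ℝ := Tm x (κ / 2) with hT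
    have hφT : Integrable (fun v => φ v * (T v : ℂ)) := by
      refine hφ.mul_bdd (c := 2 * B') (Complex.continuous_ofReal.comp hTc).aestronglyMeasurable
        (Eventually.of_forall fun v => ?_)
      rw [Complex.norm_real, Real.norm_eq_abs]
      exact hTb v
    -- the value
    have hval : ∫ v, φ v * (T v : ℂ) = x n0 / 2 := by
      obtain ⟨g1, g2⟩ := gen hφ hx (fun n => Real.log n)
      have hxc : Summable fun n => ‖(starRingEnd ℂ) (x n)‖ := by
        simpa only [RCLike.norm_conj] using hx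
      obtain ⟨g3, g4⟩ := gen hφ hxc (fun n => -Real.log n)
      have e1 : ∀ v, φ v * (T v : ℂ) = ((κ / 2 : ℝ) : ℂ) * φ v + (1 / 2 : ℂ) * (φ v * ∑' n : ℕ, x n *
          Complex.exp (-(Real.log n * v * Complex.I))) + (1 / 2 : ℂ) * (φ v * ∑' n : ℕ, (starRingEnd ℂ) (x n) *
          Complex.exp (-((-Real.log n : ℝ) * v * Complex.I))) := by
        intro v
        have e2 : ∑' n : ℕ, (starRingEnd ℂ) (x n) * Complex.exp (-((-Real.log n : ℝ) * v * Complex.I)) =
            (starRingEnd ℂ) (Sx x v) := by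
          unfold Sx
          rw [Complex.conj_tsum]
          refine tsum_congr fun n => ?_
          rw [map_mul, ← Complex.exp_conj]
          congr 2
          rw [map_neg, map_mul, map_mul, Complex.conj_ofReal, Complex.conj_ofReal, Complex.conj_I]
          push_cast
          ring
        have e3 : ∑' n : ℕ, x n * Complex.exp (-(Real.log n * v * Complex.I)) = Sx x v := rfl
        rw [e2, e3, hT, Tm_eq]
        have e4 := Complex.re_eq_add_conj (Sx x v)
        push_cast
        rw [e4]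
        ring
      have i1 : Integrable (fun v => ((κ / 2 : ℝ) : ℂ) * φ v) := hφ.const_mul _
      have i2 := g1.const_mul (1 / 2 : ℂ)
      have i3 := g3.const_mul (1 / 2 : ℂ)
      have i4 : ∫ v, φ v = 0 := by
        have h2 := hφg 0
        rw [hneg 0 le_rfl] at h2
        simpa using h2
      have i5 : ∑' n : ℕ, x n * ∫ v : ℝ, φ v * Complex.exp (-(Real.log n * v * Complex.I)) = x n0 := by
        rw [tsum_eq_single n0]
        · rw [hφg (Real.log n0)]
          have : f (Real.log n0) = 1 := hfc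
          rw [this]
          simp
        · intro n hn
          rcases Nat.lt_or_ge n 2 with h2 | h2
          · have : n = 0 ∨ n = 1 := by omega
            rcases this with rfl | rfl
            · rw [h0, zero_mul]
            · rw [h1, zero_mul]
          · rw [hφg (Real.log n), hother n h2 hn]
            simp
      have i6 : ∑' n : ℕ, (starRingEnd ℂ) (x n) * ∫ v : ℝ, φ v * Complex.exp (-((-Real.log n : ℝ) * v * Complex.I)) = 0 := by
        have h2 : ∀ n : ℕ, (starRingEnd ℂ) (x n) * ∫ v : ℝ, φ v * Complex.exp (-((-Real.log n : ℝ) * v * Complex.I)) = 0 := by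
          intro n
          rw [hφg (-Real.log n), hneg _ (neg_nonpos.2 (Real.log_natCast_nonneg n))]
          simp
        simp only [h2, tsum_zero]
      simp only [e1]
      have i12 : Integrable (fun v => ((κ / 2 : ℝ) : ℂ) * φ v + (1 / 2 : ℂ) * (φ v * ∑' n : ℕ, x n *
          Complex.exp (-(Real.log n * v * Complex.I)))) := i1.add i2
      rw [integral_add i12 i3, integral_add i1 i2, integral_const_mul, integral_const_mul, integral_const_mul,
        i4, g2, g4, i5, i6]
      ring
    have hre : (∫ v, φ v * (T v : ℂ)).re = ∫ v, (φ v).re * T v := by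
      have h2 : ∫ v, (φ v * (T v : ℂ)).re = (∫ v, φ v * (T v : ℂ)).re := integral_re hφT
      rw [← h2]
      refine integral_congr_ae (Eventually.of_forall fun v => ?_)
      simp only
      rw [Complex.re_mul_ofReal]
    have him : (∫ v, φ v * (T v : ℂ)).im = ∫ v, (φ v).im * T v := by
      have h2 : ∫ v, (φ v * (T v : ℂ)).im = (∫ v, φ v * (T v : ℂ)).im := integral_im hφT
      rw [← h2]
      refine integral_congr_ae (Eventually.of_forall fun v => ?_)
      simp only
      rw [Complex.im_mul_ofReal]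
    rw [← hre, hval] at k1
    rw [← him, hval] at k2
    have h2 : ‖x n0 / 2‖ ≤ ε / 2 := by
      refine (Complex.norm_le_abs_re_add_abs_im _).trans ?_
      linarith
    rw [norm_div, Complex.norm_ofNat] at h2
    linarith

end Pool.Agent.Q211.PG
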